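import Pool.Agent.Run7.h77.RD.Defs

/-! DEGA: the degrees on side A. -/

set_option autoImplicit false

namespace Run7.h482.RD

open Finset Run7.h77.RD

theorem pos_iff {L w : ℕ} (b b' : Fin (L + 1)) (c c' : Fin w) :
    (c' : ℕ) + w * b' ≤ c + w * b ↔ Dn (b, c) (b', c') := by
  unfold Dn
  rcases lt_trichotomy (b' : ℕ) (b : ℕ) with h | h | h
  · have h1 : w * ((b' : ℕ) + 1) ≤ w * b := Nat.mul_le_mul_left w h
    rw [Nat.mul_add, Nat.mul_one] at h1
    have h2 := c'.isLt
    constructor
    · intro _; exact Or.inl h
    · intro _; omega
  · have hb : b' = b := Fin.ext h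
    subst hb
    constructor
    · intro hle
      refine Or.inr ⟨rfl, ?_⟩
      show (c' : ℕ) ≤ c
      omega
    · rintro (h3 | h3)
      · exact absurd h3 (lt_irrefl _)
      · have : (c' : ℕ) ≤ c := h3.2
        omega
  · have h1 : w * ((b : ℕ) + 1) ≤ w * b' := Nat.mul_le_mul_left w h
    rw [Nat.mul_add, Nat.mul_one] at h1
    have h2 := c.isLt
    constructor
    · intro _; omega
    · rintro (h3 | h3)
      · have : (b' : ℕ) < b := h3
        omega
      · have : b' = b := h3.1
        omega

theorem dn_card {L w : ℕ} (b : Fin (L + 1)) (c : Fin w) :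
    ({x : Fin (L + 1) × Fin w | Dn (b, c) x}).ncard = (b : ℕ) * w + c + 1 := by
  have himg : (finProdFinEquiv : Fin (L + 1) × Fin w ≃ Fin ((L + 1) * w)) ''
      {x : Fin (L + 1) × Fin w | Dn (b, c) x} = Set.Iic (finProdFinEquiv (b, c)) := by
    ext k
    constructor
    · rintro ⟨⟨b', c'⟩, hx, rfl⟩
      rw [Set.mem_Iic, Fin.le_def]
      show (c' : ℕ) + w * b' ≤ c + w * b
      exact (pos_iff b b' c c').2 hx
    · intro hk
      obtain ⟨⟨b', c'⟩, rfl⟩ := finProdFinEquiv.surjective k
      rw [Set.mem_Iic, Fin.le_def] at hk
      exact ⟨(b', c'), (pos_iff b b' c c').1 hk, rfl⟩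
  rw [← Set.ncard_image_of_injective _ (finProdFinEquiv : Fin (L + 1) × Fin w ≃ Fin ((L + 1) * w)).injective,
    himg, Set.ncard_eq_toFinset_card', Set.toFinset_Iic, Fin.card_Iic]
  show (c : ℕ) + w * b + 1 = _
  ring

theorem ne_card {p : ℕ} (i : Fin p) : ({j : Fin p | j ≠ i}).ncard = p - 1 := by
  have h : {j : Fin p | j ≠ i} = ({i} : Set (Fin p))ᶜ := by ext j; simp
  rw [h, Set.ncard_compl, Set.ncard_singleton, Nat.card_eq_fintype_card, Fintype.card_fin]

theorem t_DEGA : S_DEGA := by
  intro p L w D H hL hD i b c
  classical
  have hfin : ∀ s : Set (V p L w), s.Finite := fun s => Set.toFinite s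
  have inj1 : Function.Injective (fun x : Fin (L + 1) × Fin w => ((i, true, x) : V p L w)) := by
    intro x y h
    simpa using h
  by_cases hb : (b : ℕ) < L
  · rw [if_pos hb]
    let b1 : Fin (L + 1) := ⟨(b : ℕ) + 1, by omega⟩
    have inj2 : Function.Injective (fun y : Fin p × Fin w => ((y.1, false, b, y.2) : V p L w)) := by
      intro x y h
      simp only [Prod.mk.injEq, true_and] at h
      exact Prod.ext h.1 h.2
    have inj3 : Function.Injective (fun y : Fin p × Fin w => ((y.1, true, b1, y.2) : V p L w)) := by
      intro x y h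
      simp only [Prod.mk.injEq, true_and] at h
      exact Prod.ext h.1 h.2
    have hset : (G p L w H).neighborSet (i, false, b, c) =
        (fun x : Fin (L + 1) × Fin w => ((i, true, x) : V p L w)) '' {x | Dn (b, c) x} ∪
        ((fun y : Fin p × Fin w => ((y.1, false, b, y.2) : V p L w)) ''
            ({j : Fin p | j ≠ i} ×ˢ H.neighborSet c) ∪
          (fun y : Fin p × Fin w => ((y.1, true, b1, y.2) : V p L w)) ''
            ({j : Fin p | j ≠ i} ×ˢ H.neighborSet c)) := by
      ext ⟨j, s, b', c'⟩
      rw [SimpleGraph.mem_neighborSet]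
      constructor
      · rintro (h | h | h)
        · obtain ⟨-, hs, h⟩ := h
          have hs' : s = true := hs
          subst hs'
          rcases h with ⟨hij, hd⟩ | ⟨hij, hlast, -⟩
          · have hij' : i = j := hij
            subst hij'
            exact Or.inl ⟨(b', c'), hd, rfl⟩
          · exfalso
            have : b = Fin.last L := hlast
            rw [this] at hb
            simp at hb
        · exfalso
          have := h.2.1
          simp at this
        · obtain ⟨hij, hbid, h1, h2, hadj⟩ := h
          have hij' : i ≠ j := hij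
          have hadj' : H.Adj c c' := hadj
          have hbid' : (b : ℕ) + 1 = bid s b' := by simpa [bid] using hbid
          right
          cases s with
          | false =>
            left
            have : b' = b := by
              apply Fin.ext
              simp [bid] at hbid'
              omega
            subst this
            exact ⟨(j, c'), ⟨hij'.symm, hadj'⟩, rfl⟩
          | true =>
            right
            have : b' = b1 := by
              apply Fin.ext
              simp [bid] at hbid'
              show (b' : ℕ) = (b : ℕ) + 1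
              omega
            subst this
            exact ⟨(j, c'), ⟨hij'.symm, hadj'⟩, rfl⟩
      · rintro (⟨x, hx, hxe⟩ | ⟨y, hy, hye⟩ | ⟨y, hy, hye⟩)
        · rw [← hxe]
          exact Or.inl ⟨rfl, rfl, Or.inl ⟨rfl, hx⟩⟩
        · rw [← hye]
          refine Or.inr (Or.inr ⟨fun e => hy.1 e.symm, rfl, ?_, ?_, hy.2⟩)
          · show 1 ≤ bid false b
            simp [bid]
          · show bid false b ≤ L
            simp only [bid]
            simp
            omega
        · rw [← hye]
          refine Or.inr (Or.inr ⟨fun e => hy.1 e.symm, ?_, ?_, ?_, hy.2⟩)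
          · show bid false b = bid true b1
            simp [bid, b1]
          · show 1 ≤ bid false b
            simp [bid]
          · show bid false b ≤ L
            simp only [bid]
            simp
            omega
    rw [hset, Set.ncard_union_eq ?_ (hfin _) (hfin _), Set.ncard_union_eq ?_ (hfin _) (hfin _),
      Set.ncard_image_of_injective _ inj1, Set.ncard_image_of_injective _ inj2,
      Set.ncard_image_of_injective _ inj3, dn_card, Set.ncard_prod, ne_card, hD]
    · ring
    · rw [Set.disjoint_left]
      rintro v ⟨y, hy, rfl⟩ ⟨z, hz, hze⟩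
      simp at hze
    · rw [Set.disjoint_left]
      rintro v ⟨x, hx, rfl⟩ (⟨z, hz, hze⟩ | ⟨z, hz, hze⟩)
      · simp at hze
      · simp only [Prod.mk.injEq] at hze
        exact hz.1 hze.1
  · rw [if_neg hb]
    have hbL : b = Fin.last L := by
      apply Fin.ext
      have := b.isLt
      simp only [Fin.val_last]
      omega
    have inj2 : Function.Injective (fun y : Fin p × Fin w => ((y.1, true, 0, y.2) : V p L w)) := by
      intro x y h
      simp only [Prod.mk.injEq, true_and] at h
      exact Prod.ext h.1 h.2
    have hset : (G p L w H).neighborSet (i, false, b, c) =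
        (fun x : Fin (L + 1) × Fin w => ((i, true, x) : V p L w)) '' {x | Dn (b, c) x} ∪
        (fun y : Fin p × Fin w => ((y.1, true, 0, y.2) : V p L w)) ''
            ({j : Fin p | j ≠ i} ×ˢ (Set.univ : Set (Fin w))) := by
      ext ⟨j, s, b', c'⟩
      rw [SimpleGraph.mem_neighborSet]
      constructor
      · rintro (h | h | h)
        · obtain ⟨-, hs, h⟩ := h
          have hs' : s = true := hs
          subst hs'
          rcases h with ⟨hij, hd⟩ | ⟨hij, -, h0⟩
          · have hij' : i = j := hij
            subst hij'
            exact Or.inl ⟨(b', c'), hd, rfl⟩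
          · right
            have h0' : b' = 0 := h0
            have hij' : i ≠ j := hij
            subst h0'
            exact ⟨(j, c'), ⟨hij'.symm, Set.mem_univ _⟩, rfl⟩
        · exfalso
          have := h.2.1
          simp at this
        · exfalso
          obtain ⟨hij, hbid, h1, h2, hadj⟩ := h
          have h2' : bid false b ≤ L := h2
          simp only [bid] at h2'
          simp at h2'
          omega
      · rintro (⟨x, hx, hxe⟩ | ⟨y, hy, hye⟩)
        · rw [← hxe]
          exact Or.inl ⟨rfl, rfl, Or.inl ⟨rfl, hx⟩⟩
        · rw [← hye]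
          exact Or.inl ⟨rfl, rfl, Or.inr ⟨fun e => hy.1 e.symm, hbL, rfl⟩⟩
    rw [hset, Set.ncard_union_eq ?_ (hfin _) (hfin _),
      Set.ncard_image_of_injective _ inj1, Set.ncard_image_of_injective _ inj2,
      dn_card, Set.ncard_prod, ne_card, Set.ncard_univ, Nat.card_eq_fintype_card, Fintype.card_fin]
    rw [Set.disjoint_left]
    rintro v ⟨x, hx, rfl⟩ ⟨z, hz, hze⟩
    simp only [Prod.mk.injEq] at hze
    exact hz.1 hze.1

end Run7.h482.RD
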