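import Pool.Agent.Run7.h77.RD.Defs

/-! IND: the independence number. -/

set_option autoImplicit false

namespace Run7.h482.RD

open Finset Run7.h77.RD

theorem t_IND : S_IND := by
  intro p L w H ε hL hε hH X hX
  classical
  let lab : Fin p → Bool → Fin (L + 1) → Finset (Fin w) :=
    fun i s b => univ.filter (fun c => (i, s, b, c) ∈ X)
  have hlab : ∀ i s b c, c ∈ lab i s b ↔ (i, s, b, c) ∈ X := by
    intro i s b c; simp [lab]
  have hlw : ∀ i s b, ((lab i s b).card : ℝ) ≤ w := by
    intro i s b
    have : (lab i s b).card ≤ Fintype.card (Fin w) := Finset.card_le_univ _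
    rw [Fintype.card_fin] at this
    exact_mod_cast this
  have hl0 : ∀ i s b, (0 : ℝ) ≤ ((lab i s b).card : ℝ) := fun i s b => Nat.cast_nonneg _
  -- the number of elements
  have hcardN : X.card = ∑ i, (∑ b, (lab i true b).card + ∑ b, (lab i false b).card) := by
    have h1 : X.card = ∑ v : V p L w, if v ∈ X then 1 else 0 := by
      rw [← Finset.card_filter]
      congr 1
      ext v; simp
    rw [h1]
    simp only [V, Fintype.sum_prod_type, Fintype.sum_bool, lab, Finset.card_filter]
  have hcard : (X.card : ℝ) = ∑ i, (((lab i true 0).card : ℝ) + (lab i false (Fin.last L)).card) +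
      ∑ k : Fin L, ∑ i, (((lab i true k.succ).card : ℝ) + (lab i false k.castSucc).card) := by
    rw [Finset.sum_comm, ← Finset.sum_add_distrib]
    rw [hcardN]
    push_cast
    refine Finset.sum_congr rfl fun i _ => ?_
    rw [Fin.sum_univ_succ (fun b => ((lab i true b).card : ℝ)),
      Fin.sum_univ_castSucc (fun b => ((lab i false b).card : ℝ)), Finset.sum_add_distrib]
    ring
  -- blocks with both sides nonempty
  let K : Fin p → Finset (Fin L) := fun i =>
    univ.filter (fun k => (lab i true k.succ).Nonempty ∧ (lab i false k.castSucc).Nonempty)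
  have hK : ∀ i, (K i).card ≤ 2 := by
    intro i
    by_cases hne : (K i).Nonempty
    · let m := (K i).min' hne
      have hm : m ∈ K i := Finset.min'_mem _ _
      have hsub : ∀ k ∈ K i, (k : ℕ) = m ∨ (k : ℕ) = m + 1 := by
        intro k hk
        have hmk : m ≤ k := Finset.min'_le _ _ hk
        have hmk' : (m : ℕ) ≤ k := hmk
        by_contra hcon
        push Not at hcon
        have h2 : (m : ℕ) + 1 < k := by omega
        obtain ⟨c', hc'⟩ := (Finset.mem_filter.mp hm).2.1
        obtain ⟨c, hc⟩ := (Finset.mem_filter.mp hk).2.2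
        rw [hlab] at hc hc'
        refine hX _ hc _ hc' ?_
        left
        refine ⟨rfl, rfl, Or.inl ⟨rfl, Or.inl ?_⟩⟩
        rw [Fin.lt_def]
        simpa using h2
      have hcK : (K i).card ≤ ({(m : ℕ), (m : ℕ) + 1} : Finset ℕ).card := by
        refine Finset.card_le_card_of_injOn (fun k => (k : ℕ)) ?_ ?_
        · intro k hk
          rcases hsub k hk with h | h <;> simp [h]
        · intro k _ k' _ h
          exact Fin.ext h
      exact hcK.trans Finset.card_le_two
    · rw [Finset.not_nonempty_iff_eq_empty] at hne
      rw [hne]; simp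
  -- one block
  have hadj : ∀ (k : Fin L) (i j : Fin p), i ≠ j → ∀ (s s' : Bool) (b b' : Fin (L + 1)),
      bid s b = (k : ℕ) + 1 → bid s' b' = (k : ℕ) + 1 → ε * w ≤ ((lab i s b).card : ℝ) →
      ε * w ≤ ((lab j s' b').card : ℝ) → False := by
    intro k i j hij s s' b b' hb hb' h1 h2
    obtain ⟨x, hx, y, hy, hxy⟩ := hH _ _ h1 h2
    rw [hlab] at hx hy
    refine hX _ hx _ hy (Or.inr (Or.inr ⟨hij, ?_, ?_, ?_, hxy⟩))
    · show bid s b = bid s' b'
      rw [hb, hb']
    · show 1 ≤ bid s b
      rw [hb]; omega
    · show bid s b ≤ L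
      rw [hb]; exact k.isLt
  have hbt : ∀ k : Fin L, bid true k.succ = (k : ℕ) + 1 := by
    intro k; simp [bid]
  have hbf : ∀ k : Fin L, bid false k.castSucc = (k : ℕ) + 1 := by
    intro k; simp [bid]
  have hblock : ∀ k : Fin L, ∑ i, (((lab i true k.succ).card : ℝ) + (lab i false k.castSucc).card) ≤
      w * (1 + 2 * p * ε) + ∑ i, (if k ∈ K i then (w : ℝ) else 0) := by
    intro k
    have hif : ∀ i, (0 : ℝ) ≤ (if k ∈ K i then (w : ℝ) else 0) := by
      intro i; split_ifs <;> simp
    have hone : ∀ i, ((lab i true k.succ).card : ℝ) + (lab i false k.castSucc).card ≤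
        w + (if k ∈ K i then (w : ℝ) else 0) := by
      intro i
      by_cases h1 : (lab i true k.succ).Nonempty
      · by_cases h2 : (lab i false k.castSucc).Nonempty
        · have : k ∈ K i := by simp only [K, Finset.mem_filter, Finset.mem_univ, true_and]; exact ⟨h1, h2⟩
          rw [if_pos this]
          exact add_le_add (hlw _ _ _) (hlw _ _ _)
        · rw [Finset.not_nonempty_iff_eq_empty] at h2
          rw [h2]
          have := hlw i true k.succ
          have := hif i
          simp only [Finset.card_empty, Nat.cast_zero, add_zero]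
          linarith
      · rw [Finset.not_nonempty_iff_eq_empty] at h1
        rw [h1]
        have := hlw i false k.castSucc
        have := hif i
        simp only [Finset.card_empty, Nat.cast_zero, zero_add]
        linarith
    have hw0 : (0 : ℝ) ≤ w := Nat.cast_nonneg _
    by_cases hbig : ∃ i, ε * w ≤ ((lab i true k.succ).card : ℝ) ∨ ε * w ≤ ((lab i false k.castSucc).card : ℝ)
    · obtain ⟨i0, hi0⟩ := hbig
      have hother : ∀ j, j ≠ i0 → ((lab j true k.succ).card : ℝ) + (lab j false k.castSucc).card ≤ 2 * (ε * w) := by
        intro j hj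
        have h1 : ((lab j true k.succ).card : ℝ) < ε * w := by
          by_contra hcon
          push Not at hcon
          rcases hi0 with h | h
          · exact hadj k i0 j hj.symm _ _ _ _ (hbt k) (hbt k) h hcon
          · exact hadj k i0 j hj.symm _ _ _ _ (hbf k) (hbt k) h hcon
        have h2 : ((lab j false k.castSucc).card : ℝ) < ε * w := by
          by_contra hcon
          push Not at hcon
          rcases hi0 with h | h
          · exact hadj k i0 j hj.symm _ _ _ _ (hbt k) (hbf k) h hcon
          · exact hadj k i0 j hj.symm _ _ _ _ (hbf k) (hbf k) h hcon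
        linarith
      have hle : ∀ i, ((lab i true k.succ).card : ℝ) + (lab i false k.castSucc).card ≤
          2 * (ε * w) + (if i = i0 then (w : ℝ) else 0) + (if k ∈ K i then (w : ℝ) else 0) := by
        intro i
        have he : 0 ≤ ε * w := mul_nonneg hε.le hw0
        by_cases h : i = i0
        · rw [if_pos h]
          have := hone i
          linarith
        · rw [if_neg h]
          have := hother i h
          have := hif i
          linarith
      refine (Finset.sum_le_sum fun i _ => hle i).trans ?_
      rw [Finset.sum_add_distrib, Finset.sum_add_distrib, Finset.sum_ite_eq' univ i0]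
      simp only [Finset.sum_const, Finset.card_univ, Fintype.card_fin, nsmul_eq_mul, Finset.mem_univ, if_true]
      have : (p : ℝ) * (2 * (ε * w)) + w = w * (1 + 2 * p * ε) := by ring
      linarith
    · push Not at hbig
      have hle : ∀ i, ((lab i true k.succ).card : ℝ) + (lab i false k.castSucc).card ≤
          2 * (ε * w) + (if k ∈ K i then (w : ℝ) else 0) := by
        intro i
        have := hbig i
        have := hif i
        linarith [(hbig i).1, (hbig i).2]
      refine (Finset.sum_le_sum fun i _ => hle i).trans ?_
      rw [Finset.sum_add_distrib]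
      simp only [Finset.sum_const, Finset.card_univ, Fintype.card_fin, nsmul_eq_mul]
      have : (p : ℝ) * (2 * (ε * w)) = w * (1 + 2 * p * ε) - w := by ring
      linarith
  -- the total
  have hsumK : ∑ k : Fin L, ∑ i, (if k ∈ K i then (w : ℝ) else 0) ≤ 2 * p * w := by
    rw [Finset.sum_comm]
    have h1 : ∀ i, ∑ k : Fin L, (if k ∈ K i then (w : ℝ) else 0) ≤ 2 * w := by
      intro i
      rw [← Finset.sum_filter]
      have : (univ.filter (fun k => k ∈ K i)) = K i := by ext k; simp
      rw [this, Finset.sum_const, nsmul_eq_mul]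
      have h2 : ((K i).card : ℝ) ≤ 2 := by exact_mod_cast hK i
      exact mul_le_mul_of_nonneg_right h2 (Nat.cast_nonneg _)
    refine (Finset.sum_le_sum fun i _ => h1 i).trans ?_
    simp only [Finset.sum_const, Finset.card_univ, Fintype.card_fin, nsmul_eq_mul]
    apply le_of_eq; ring
  have hout : ∑ i, (((lab i true 0).card : ℝ) + (lab i false (Fin.last L)).card) ≤ 2 * p * w := by
    have h1 : ∀ i, ((lab i true 0).card : ℝ) + (lab i false (Fin.last L)).card ≤ 2 * w := by
      intro i
      linarith [hlw i true 0, hlw i false (Fin.last L)]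
    refine (Finset.sum_le_sum fun i _ => h1 i).trans ?_
    simp only [Finset.sum_const, Finset.card_univ, Fintype.card_fin, nsmul_eq_mul]
    apply le_of_eq; ring
  have hblk : ∑ k : Fin L, ∑ i, (((lab i true k.succ).card : ℝ) + (lab i false k.castSucc).card) ≤
      L * (w * (1 + 2 * p * ε)) + 2 * p * w := by
    refine (Finset.sum_le_sum fun k _ => hblock k).trans ?_
    rw [Finset.sum_add_distrib]
    simp only [Finset.sum_const, Finset.card_univ, Fintype.card_fin, nsmul_eq_mul]
    linarith
  rw [hcard]
  have : (L : ℝ) * w * (1 + 2 * p * ε) = L * (w * (1 + 2 * p * ε)) := by ring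
  rw [this]
  linarith

end Run7.h482.RD
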